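import Pool.Agent.Helper71.CH.Basic
import Pool.Agent.Helper8.CH.Cnt
import Pool.Agent.Helper70.CH.Slope

/-!
# Project CH, module CH-L: the initial loads
-/

set_option autoImplicit false

namespace Pool.Agent.Helper75.CG

open scoped Classical
open Finset
open Pool.Agent.Helper65.CliqueGame

namespace Setup

variable {V Δ : Type} [Fintype V] [Fintype Δ] (X : Setup V Δ)

namespace LoadAux

theorem two_rpow_logb {x : ℝ} (hx : 0 < x) : (2 : ℝ) ^ (Real.logb 2 x) = x :=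
  Real.rpow_logb (by norm_num) (by norm_num) hx

theorem three_rpow (a x y z : ℝ) :
    a * (2 : ℝ) ^ x * (2 : ℝ) ^ y * (2 : ℝ) ^ z = a * (2 : ℝ) ^ (x + y + z) := by
  rw [Real.rpow_add (by norm_num), Real.rpow_add (by norm_num)]
  ring

theorem bs_le_m (j : ℕ) : X.bs j ≤ X.m := by
  have h := X.hm
  unfold bs
  split_ifs <;> omega

theorem fac_le (j : ℕ) : (X.bs j : ℝ) / 2 ^ (X.z j) ≤
    (2 : ℝ) ^ (Real.logb 2 X.m - X.z j) := by
  have hm : (0 : ℝ) < X.m := by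
    have := X.hm
    exact_mod_cast (by omega : 0 < X.m)
  rw [Real.rpow_sub (by norm_num), two_rpow_logb hm, Real.rpow_natCast]
  exact div_le_div_of_nonneg_right (by exact_mod_cast bs_le_m X j) (by positivity)

theorem prod_fac_le (S : Finset V) :
    ∏ x ∈ S, (X.bs (X.gv x) : ℝ) / 2 ^ (X.z (X.gv x)) ≤
      (2 : ℝ) ^ ((S.card : ℝ) * Real.logb 2 X.m - ∑ x ∈ S, (X.z (X.gv x) : ℝ)) := by
  have h1 : ∑ x ∈ S, (Real.logb 2 X.m - (X.z (X.gv x) : ℝ)) =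
      (S.card : ℝ) * Real.logb 2 X.m - ∑ x ∈ S, (X.z (X.gv x) : ℝ) := by
    rw [sum_sub_distrib, sum_const, nsmul_eq_mul]
  rw [← h1, Real.rpow_sum_of_pos (by norm_num)]
  exact prod_le_prod (fun x _ => by positivity) fun x _ => fac_le X _

theorem prod_dis_le {K0 : ℝ} (hK0 : 1 ≤ K0) (hk : ∀ j ≤ X.R, (X.k j : ℝ) ≤ K0)
    (S : Finset V) :
    ∏ δ ∈ S.image X.dis, (X.k (X.gen δ) : ℝ) / 2 ^ (X.y (X.gen δ)) ≤
      (2 : ℝ) ^ ((S.card : ℝ) * Real.logb 2 K0 - ∑ δ ∈ S.image X.dis, (X.y (X.gen δ) : ℝ)) := by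
  have h0 : 0 ≤ Real.logb 2 K0 := Real.logb_nonneg (by norm_num) hK0
  have h1 : ∑ δ ∈ S.image X.dis, (Real.logb 2 K0 - (X.y (X.gen δ) : ℝ)) =
      ((S.image X.dis).card : ℝ) * Real.logb 2 K0 -
        ∑ δ ∈ S.image X.dis, (X.y (X.gen δ) : ℝ) := by
    rw [sum_sub_distrib, sum_const, nsmul_eq_mul]
  have h2 : ((S.image X.dis).card : ℝ) * Real.logb 2 K0 ≤ (S.card : ℝ) * Real.logb 2 K0 :=
    mul_le_mul_of_nonneg_right (by exact_mod_cast card_image_le) h0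
  calc ∏ δ ∈ S.image X.dis, (X.k (X.gen δ) : ℝ) / 2 ^ (X.y (X.gen δ))
      ≤ ∏ δ ∈ S.image X.dis, (2 : ℝ) ^ (Real.logb 2 K0 - (X.y (X.gen δ) : ℝ)) := by
        refine prod_le_prod (fun δ _ => by positivity) fun δ _ => ?_
        rw [Real.rpow_sub (by norm_num), two_rpow_logb (by linarith), Real.rpow_natCast]
        exact div_le_div_of_nonneg_right (hk _ (X.gen_le δ)) (by positivity)
    _ = (2 : ℝ) ^ (((S.image X.dis).card : ℝ) * Real.logb 2 K0 -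
        ∑ δ ∈ S.image X.dis, (X.y (X.gen δ) : ℝ)) := by
        rw [← h1, Real.rpow_sum_of_pos (by norm_num)]
    _ ≤ _ := Real.rpow_le_rpow_of_exponent_le (by norm_num) (by linarith)

theorem NN_pow_le {j : ℕ} (hj : j < X.R) (f : ℕ) :
    (X.NN j : ℝ) ^ f ≤ (2 : ℝ) ^ ((X.m : ℝ) * X.z j * f) := by
  have h0 : (0 : ℝ) < X.NN j := by exact_mod_cast X.NN_pos j
  have h1 : (X.NN j : ℝ) ≤ (2 : ℝ) ^ ((X.m : ℝ) * X.z j) := by
    rw [← two_rpow_logb h0]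
    exact Real.rpow_le_rpow_of_exponent_le (by norm_num) (X.NN_upper hj)
  calc (X.NN j : ℝ) ^ f ≤ ((2 : ℝ) ^ ((X.m : ℝ) * X.z j)) ^ f := pow_le_pow_left₀ h0.le h1 f
    _ = _ := by rw [← Real.rpow_natCast, ← Real.rpow_mul (by norm_num)]

theorem m_pow_eq (s : ℕ) :
    ((X.m : ℝ) + 1) ^ s = (2 : ℝ) ^ (Real.logb 2 (X.m + 1) * s) := by
  rw [Real.rpow_mul (by norm_num), two_rpow_logb (by positivity), Real.rpow_natCast]

theorem w0_le (S : Finset V) :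
    X.w0 S ≤ (2 : ℝ) ^ ((X.ein S : ℝ) + ∑ j ∈ range (X.R + 1), (X.ecr j S : ℝ) +
      Real.logb 2 (X.m + 1) * ∑ j ∈ range X.R, (X.st j S : ℝ) +
      ∑ j ∈ range X.R, (X.m : ℝ) * X.z j * X.ff j S) := by
  unfold w0 wE
  have h1 : ∏ i ∈ Ico 0 X.R, ((2 : ℝ) ^ (X.ecr i S) * (X.NN i : ℝ) ^ (X.ff i S) *
      ((X.m : ℝ) + 1) ^ (X.st i S)) ≤
      (2 : ℝ) ^ (∑ i ∈ range X.R, ((X.ecr i S : ℝ) + (X.m : ℝ) * X.z i * X.ff i S +
        Real.logb 2 (X.m + 1) * X.st i S)) := by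
    rw [Real.rpow_sum_of_pos (by norm_num), Nat.Ico_zero_eq_range]
    refine prod_le_prod (fun i _ => by positivity) fun i hi => ?_
    rw [Real.rpow_add (by norm_num), Real.rpow_add (by norm_num), Real.rpow_natCast, ← m_pow_eq]
    have h2 := NN_pow_le X (mem_range.1 hi) (X.ff i S)
    gcongr
  calc (2 : ℝ) ^ (X.ein S) * ((∏ i ∈ Ico 0 X.R, ((2 : ℝ) ^ (X.ecr i S) *
        (X.NN i : ℝ) ^ (X.ff i S) * ((X.m : ℝ) + 1) ^ (X.st i S))) * 2 ^ (X.ecr X.R S))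
      ≤ (2 : ℝ) ^ (X.ein S) * ((2 : ℝ) ^ (∑ i ∈ range X.R, ((X.ecr i S : ℝ) +
        (X.m : ℝ) * X.z i * X.ff i S + Real.logb 2 (X.m + 1) * X.st i S)) *
          2 ^ (X.ecr X.R S)) := by gcongr
    _ = _ := by
        rw [← Real.rpow_natCast 2 (X.ein S), ← Real.rpow_natCast 2 (X.ecr X.R S),
          ← Real.rpow_add (by norm_num), ← Real.rpow_add (by norm_num)]
        congr 1
        rw [sum_add_distrib, sum_add_distrib, sum_range_succ, mul_sum]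
        ring

theorem sum_z (S : Finset V) :
    ∑ x ∈ S, (X.z (X.gv x) : ℝ) =
      ∑ δ ∈ S.image X.dis, (X.z (X.gen δ) : ℝ) * (X.part S δ).card := by
  rw [← sum_fiberwise_of_maps_to (fun x hx => mem_image_of_mem X.dis hx)]
  refine sum_congr rfl fun δ _ => ?_
  have h1 : ∀ x ∈ S.filter (fun x => X.dis x = δ), (X.z (X.gv x) : ℝ) = X.z (X.gen δ) := by
    intro x hx
    unfold gv
    rw [(mem_filter.1 hx).2]
  rw [sum_congr rfl h1, sum_const, nsmul_eq_mul, mul_comm]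
  rfl

theorem sum_ff (S : Finset V) :
    ∑ j ∈ range X.R, (X.m : ℝ) * X.z j * X.ff j S ≤
      ∑ δ ∈ (S.image X.dis).filter (fun δ => ¬ (X.part S δ).card < X.bs (X.gen δ)),
        (X.z (X.gen δ) : ℝ) * (X.part S δ).card := by
  set F := (S.image X.dis).filter (fun δ => ¬ (X.part S δ).card < X.bs (X.gen δ)) with hF
  have h0 : ∑ δ ∈ F, (X.z (X.gen δ) : ℝ) * (X.part S δ).card =
      ∑ j ∈ range (X.R + 1), ∑ δ ∈ F.filter (fun δ => X.gen δ = j),
        (X.z (X.gen δ) : ℝ) * (X.part S δ).card :=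
    (sum_fiberwise_of_maps_to (fun δ _ => mem_range.2 (Nat.lt_succ_of_le (X.gen_le δ))) _).symm
  rw [h0, sum_range_succ]
  have h1 : 0 ≤ ∑ δ ∈ F.filter (fun δ => X.gen δ = X.R),
      (X.z (X.gen δ) : ℝ) * (X.part S δ).card := sum_nonneg fun δ _ => by positivity
  refine le_trans ?_ (le_add_of_nonneg_right h1)
  refine sum_le_sum fun j hj => ?_
  have hj' := mem_range.1 hj
  have h2 : univ.filter (fun δ => X.gen δ = j ∧ (X.part S δ).card = X.bs j) ⊆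
      F.filter (fun δ => X.gen δ = j) := by
    intro δ hδ
    obtain ⟨-, hg, hc⟩ := mem_filter.1 hδ
    refine mem_filter.2 ⟨mem_filter.2 ⟨?_, by rw [hg, hc]; exact lt_irrefl _⟩, hg⟩
    have h3 : (X.part S δ).Nonempty := by
      rw [← card_pos, hc]
      exact X.bs_pos j
    obtain ⟨x, hx⟩ := h3
    obtain ⟨hx1, hx2⟩ := mem_filter.1 hx
    exact mem_image.2 ⟨x, hx1, hx2⟩
  calc (X.m : ℝ) * X.z j * X.ff j S
      = ∑ δ ∈ univ.filter (fun δ => X.gen δ = j ∧ (X.part S δ).card = X.bs j),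
        (X.z (X.gen δ) : ℝ) * (X.part S δ).card := by
        have h4 : ∀ δ ∈ univ.filter (fun δ => X.gen δ = j ∧ (X.part S δ).card = X.bs j),
            (X.z (X.gen δ) : ℝ) * (X.part S δ).card = X.m * X.z j := by
          intro δ hδ
          obtain ⟨-, hg, hc⟩ := mem_filter.1 hδ
          rw [hg, hc, X.bs_lt hj', mul_comm]
        rw [sum_congr rfl h4, sum_const, nsmul_eq_mul, mul_comm]
        rfl
    _ ≤ _ := sum_le_sum_of_subset_of_nonneg h2 fun δ _ _ => by positivity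

theorem cost_eq (S : Finset V) :
    X.cost S + ∑ δ ∈ (S.image X.dis).filter (fun δ => ¬ (X.part S δ).card < X.bs (X.gen δ)),
        (X.z (X.gen δ) : ℝ) * (X.part S δ).card =
      ∑ δ ∈ S.image X.dis, (X.y (X.gen δ) : ℝ) + ∑ x ∈ S, (X.z (X.gv x) : ℝ) := by
  unfold cost
  rw [sum_z, sum_filter, ← sum_add_distrib, ← sum_add_distrib]
  refine sum_congr rfl fun δ _ => ?_
  by_cases h : (X.part S δ).card < X.bs (X.gen δ)
  · rw [if_pos h, if_neg (not_not.2 h)]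
    ring
  · rw [if_neg h, if_pos h]
    ring

end LoadAux

open LoadAux

theorem load_one {g Γ Tm K0 : ℝ} (hK0 : 1 ≤ K0) (hk : ∀ j ≤ X.R, (X.k j : ℝ) ≤ K0)
    {S : Finset V} (hS : S ∈ X.SS0)
    (hstar : X.mu g Γ Tm S + g * S.card + S.card * (Real.logb 2 X.m + Real.logb 2 K0) +
      (X.ein S + ∑ j ∈ range (X.R + 1), (X.ecr j S : ℝ)) +
      Real.logb 2 (X.m + 1) * ∑ j ∈ range X.R, (X.st j S : ℝ) ≤ X.cost S) :
    (X.cnt S : ℝ) * X.w0 S / (X.cnt ∅ * X.GG g Γ Tm S) ≤ (2 : ℝ) ^ (-(g * S.card)) := by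
  have hc0 : (0 : ℝ) ≤ X.cnt ∅ := Nat.cast_nonneg _
  have hG : 0 < X.GG g Γ Tm S := Real.rpow_pos_of_pos (by norm_num) _
  refine div_le_of_le_mul₀ (by positivity) (by positivity) ?_
  have h1 := X.cnt_le S
  have h2 := prod_fac_le X S
  have h3 := prod_dis_le X hK0 hk S
  have h4 := w0_le X S
  have h5 := sum_ff X S
  have h6 := cost_eq X S
  have hw0 : 0 ≤ X.w0 S := by
    unfold w0 wE
    positivity
  calc (X.cnt S : ℝ) * X.w0 S
      ≤ (X.cnt ∅ * (2 : ℝ) ^ ((S.card : ℝ) * Real.logb 2 X.m - ∑ x ∈ S, (X.z (X.gv x) : ℝ)) *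
        (2 : ℝ) ^ ((S.card : ℝ) * Real.logb 2 K0 -
          ∑ δ ∈ S.image X.dis, (X.y (X.gen δ) : ℝ))) *
        (2 : ℝ) ^ ((X.ein S : ℝ) + ∑ j ∈ range (X.R + 1), (X.ecr j S : ℝ) +
          Real.logb 2 (X.m + 1) * ∑ j ∈ range X.R, (X.st j S : ℝ) +
          ∑ j ∈ range X.R, (X.m : ℝ) * X.z j * X.ff j S) := by
        refine mul_le_mul (h1.trans ?_) h4 hw0 (by positivity)
        gcongr
    _ = X.cnt ∅ * (2 : ℝ) ^ (((S.card : ℝ) * Real.logb 2 X.m - ∑ x ∈ S, (X.z (X.gv x) : ℝ)) +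
        ((S.card : ℝ) * Real.logb 2 K0 - ∑ δ ∈ S.image X.dis, (X.y (X.gen δ) : ℝ)) +
        ((X.ein S : ℝ) + ∑ j ∈ range (X.R + 1), (X.ecr j S : ℝ) +
          Real.logb 2 (X.m + 1) * ∑ j ∈ range X.R, (X.st j S : ℝ) +
          ∑ j ∈ range X.R, (X.m : ℝ) * X.z j * X.ff j S)) := by
        exact three_rpow _ _ _ _
    _ ≤ X.cnt ∅ * (2 : ℝ) ^ (-(g * S.card) + -(X.mu g Γ Tm S)) := by
        refine mul_le_mul_of_nonneg_left
          (Real.rpow_le_rpow_of_exponent_le (by norm_num) ?_) hc0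
        linarith
    _ = (2 : ℝ) ^ (-(g * S.card)) * (X.cnt ∅ * X.GG g Γ Tm S) := by
        rw [Real.rpow_add (by norm_num)]
        unfold GG
        ring

theorem load_all {g : ℝ} {f : Finset V → ℝ}
    (hf : ∀ S ∈ X.SS0, f S ≤ (2 : ℝ) ^ (-(g * S.card)))
    (hg : ((∑ j ∈ range (X.R + 1), X.bs j * X.k j : ℕ) : ℝ) * (2 : ℝ) ^ (-g) ≤ 1 / 8) :
    ∀ A, X.Adm A → ∑ S ∈ X.SS0.filter (fun S => S ⊆ A), f S ≤ 1 / 4 := by
  intro A hA
  set c : ℝ := (2 : ℝ) ^ (-g) with hc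
  have hc0 : 0 < c := Real.rpow_pos_of_pos (by norm_num) _
  rw [← hA.card] at hg
  have h1 : ∀ S : Finset V, (2 : ℝ) ^ (-(g * S.card)) = c ^ S.card := by
    intro S
    rw [hc, ← Real.rpow_natCast, ← Real.rpow_mul (by norm_num)]
    congr 1
    ring
  have h2 : ∑ S ∈ X.SS0.filter (fun S => S ⊆ A), f S ≤
      ∑ S ∈ A.powerset.erase ∅, c ^ S.card := by
    refine (sum_le_sum fun S hS => (hf S (mem_filter.1 hS).1).trans (h1 S).le).trans ?_
    refine sum_le_sum_of_subset_of_nonneg ?_ fun S _ _ => by positivity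
    intro S hS
    obtain ⟨hS1, hS2⟩ := mem_filter.1 hS
    refine mem_erase.2 ⟨?_, mem_powerset.2 hS2⟩
    have h3 := (mem_filter.1 hS1).2.1
    exact h3.ne_empty
  have h3 : ∑ S ∈ A.powerset.erase ∅, c ^ S.card = (1 + c) ^ A.card - 1 := by
    have h4 : ∑ S ∈ A.powerset, c ^ S.card = (1 + c) ^ A.card := by
      rw [← prod_const, prod_one_add]
      exact sum_congr rfl fun S _ => (prod_const _).symm
    rw [← h4, ← sum_erase_add _ _ (empty_mem_powerset A)]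
    simp
  have h5 : (1 + c) ^ A.card ≤ Real.exp (A.card * c) := by
    rw [mul_comm, Real.exp_mul, Real.rpow_natCast]
    refine pow_le_pow_left₀ (by positivity) ?_ _
    rw [add_comm]
    exact Real.add_one_le_exp c
  have h6 : Real.exp (A.card * c) ≤ Real.exp (1 / 8) := Real.exp_le_exp.2 hg
  have h7 : Real.exp (1 / 8) ≤ 8 / 7 := by
    have h8 := Real.one_sub_le_exp_neg (1 / 8)
    rw [Real.exp_neg] at h8
    have h9 := Real.exp_pos (1 / 8)
    rw [le_inv_comm₀ (by norm_num) h9] at h8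
    norm_num at h8 ⊢
    linarith
  linarith

end Setup

end Pool.Agent.Helper75.CG
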